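import Pool.Agent.TH88.SI.Tssm

/-!
# MP_3bdc7b_an: strongly irreducible subshifts closed under a near-unanimity operation

Let `G` be residually finite and let `Y ⊆ B^G` be a strongly irreducible subshift that is closed
under a coordinatewise near-unanimity operation on the finite alphabet `B`, of any arity (for
example the majority operation on `{0, 1}`, or the median on a lattice, so all strongly irreducible
subshifts closed under pointwise maximum and minimum are included).  Then `Y` and all subshifts that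
are factors of `Y` have dense periodic configurations and are surjunctive.
-/

namespace Pool.Agent.Results.MP_3bdc7b_an.NearUnanimity

open scoped Pointwise

/-- `G` is residually finite. -/
def ResiduallyFinite (G : Type) [Group G] : Prop :=
  ∀ g : G, g ≠ 1 → ∃ H : Subgroup G, H.FiniteIndex ∧ g ∉ H

/-- `X` is a subshift for the shift `(g x)(h) = x (g⁻¹ h)`. -/
def IsSubshift {G A : Type} [Group G] [TopologicalSpace A] (X : Set (G → A)) : Prop :=
  IsClosed X ∧ ∀ g : G, ∀ x ∈ X, (fun h => x (g⁻¹ * h)) ∈ X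

/-- `X` is strongly irreducible. -/
def StronglyIrreducible {G A : Type} [Group G] (X : Set (G → A)) : Prop :=
  ∃ Δ : Finset G, ∀ Ω₁ Ω₂ : Finset G, (∀ w ∈ Ω₁, ∀ d ∈ Δ, w * d ∉ Ω₂) →
    ∀ x₁ ∈ X, ∀ x₂ ∈ X, ∃ z ∈ X, (∀ w ∈ Ω₁, z w = x₁ w) ∧ (∀ w ∈ Ω₂, z w = x₂ w)

/-- `x` has a finite orbit under the shift. -/
def Periodic {G A : Type} [Group G] (x : G → A) : Prop :=
  (Set.range (fun g : G => fun h : G => x (g⁻¹ * h))).Finite

/-- `θ : Y → X` commutes with the shift. -/
def Equivariant {G A B : Type} [Group G] {Y : Set (G → B)} {X : Set (G → A)} (θ : Y → X) : Prop :=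
  ∀ (g : G) (x y : Y), (∀ h, y.1 h = x.1 (g⁻¹ * h)) → ∀ h, (θ y).1 h = (θ x).1 (g⁻¹ * h)

/-- `f` is a near-unanimity operation of arity `k + 1`: the value is `a` as soon as all arguments
with at most one exception are equal to `a`. -/
def NearUnanimity {B : Type} {k : ℕ} (f : (Fin (k + 1) → B) → B) : Prop :=
  ∀ (a b : B) (i : Fin (k + 1)), f (Function.update (fun _ => a) i b) = a

/-- `X` is closed under applying `f` at every coordinate. -/
def ClosedUnder {G B : Type} {k : ℕ} (X : Set (G → B)) (f : (Fin (k + 1) → B) → B) : Prop :=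
  ∀ x : Fin (k + 1) → G → B, (∀ i, x i ∈ X) → (fun g => f (fun i => x i g)) ∈ X

/-- the Baker-Pixley property: finite patterns extend if all their parts with at most `k` points
extend. -/
theorem bakerPixley {G A : Type} {k : ℕ} (X : Set (G → A)) (f : (Fin (k + 1) → A) → A)
    (hf : NearUnanimity f) (hX : ClosedUnder X f) (p : G → A) :
    ∀ (n : ℕ) (P : Finset G), P.card = n →
      (∀ Q ⊆ P, Q.card ≤ k → ∃ x ∈ X, ∀ g ∈ Q, x g = p g) → ∃ x ∈ X, ∀ g ∈ P, x g = p g := by
  classical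
  intro n
  induction n with
  | zero =>
    intro P hP h
    exact h P (Finset.Subset.refl _) (by omega)
  | succ n ih =>
    intro P hP h
    by_cases hk : P.card ≤ k
    · exact h P (Finset.Subset.refl _) hk
    · have h1 : k + 1 ≤ P.card := by omega
      obtain ⟨S, hSP, hS⟩ := Finset.exists_subset_card_eq h1
      let e : Fin (k + 1) ≃ S := (S.equivFinOfCardEq hS).symm
      have hIH : ∀ i : Fin (k + 1), ∃ x ∈ X, ∀ g ∈ P.erase (e i).1, x g = p g := by
        intro i
        refine ih (P.erase (e i).1) ?_ ?_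
        · rw [Finset.card_erase_of_mem (hSP (e i).2), hP]
          rfl
        · intro Q hQ hQk
          exact h Q (hQ.trans (Finset.erase_subset _ _)) hQk
      choose x hxX hx using hIH
      refine ⟨_, hX x hxX, fun g hg => ?_⟩
      show f (fun i => x i g) = p g
      by_cases hgS : g ∈ S
      · have he : (fun i => x i g) =
            Function.update (fun _ => p g) (e.symm ⟨g, hgS⟩) (x (e.symm ⟨g, hgS⟩) g) := by
          funext i
          by_cases hij : i = e.symm ⟨g, hgS⟩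
          · rw [hij, Function.update_self]
          · rw [Function.update_of_ne hij]
            refine hx i g (Finset.mem_erase.2 ⟨?_, hg⟩)
            intro hc
            apply hij
            apply e.injective
            rw [Equiv.apply_symm_apply]
            exact Subtype.ext hc.symm
        rw [he]
        exact hf _ _ _
      · have he : (fun i => x i g) = Function.update (fun _ => p g) 0 (p g) := by
          rw [show Function.update (fun _ : Fin (k + 1) => p g) 0 (p g) = fun _ => p g from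
            Function.update_eq_self (0 : Fin (k + 1)) (fun _ => p g)]
          funext i
          refine hx i g (Finset.mem_erase.2 ⟨?_, hg⟩)
          intro hc
          exact hgS (hc ▸ (e i).2)
        rw [he]
        exact hf _ _ _

section

variable {G : Type} [Group G] [DecidableEq G]

/-- the points of `Q` reached from `U` in `n` steps of `Δ` inside `Q`. -/
def reach (Δ U Q : Finset G) : ℕ → Finset G
  | 0 => U ∩ Q
  | n + 1 => (reach Δ U Q n * insert 1 Δ) ∩ Q

theorem reach_sub (Δ U Q : Finset G) (n : ℕ) : reach Δ U Q n ⊆ Q := by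
  cases n <;> exact Finset.inter_subset_right

theorem reach_mono (Δ U Q : Finset G) (n : ℕ) : reach Δ U Q n ⊆ reach Δ U Q (n + 1) := by
  intro g hg
  refine Finset.mem_inter.2 ⟨?_, reach_sub Δ U Q n hg⟩
  have := Finset.mul_mem_mul hg (Finset.mem_insert_self (1 : G) Δ)
  rwa [mul_one] at this

theorem reach_zero_sub (Δ U Q : Finset G) (n : ℕ) : U ∩ Q ⊆ reach Δ U Q n := by
  induction n with
  | zero => exact Finset.Subset.refl _
  | succ n ih => exact ih.trans (reach_mono Δ U Q n)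

theorem reach_dist (Δ U Q : Finset G) (n : ℕ) :
    ∀ g ∈ reach Δ U Q n, ∃ u ∈ U, ∃ d ∈ (insert 1 Δ) ^ n, u * d = g := by
  induction n with
  | zero =>
    intro g hg
    refine ⟨g, (Finset.mem_inter.1 hg).1, 1, ?_, mul_one g⟩
    rw [pow_zero]
    exact Finset.one_mem_one
  | succ n ih =>
    intro g hg
    obtain ⟨a, ha, b, hb, hab⟩ := Finset.mem_mul.1 (Finset.mem_inter.1 hg).1
    obtain ⟨u, hu, d, hd, hud⟩ := ih a ha
    refine ⟨u, hu, d * b, ?_, ?_⟩
    · rw [pow_succ]
      exact Finset.mul_mem_mul hd hb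
    · rw [← mul_assoc, hud, hab]

theorem reach_stop (Δ U Q : Finset G) (k : ℕ) (hQ : Q.card ≤ k) :
    ∃ n ≤ k, reach Δ U Q (n + 1) = reach Δ U Q n := by
  by_contra hc
  push Not at hc
  have h : ∀ n ≤ k + 1, n ≤ (reach Δ U Q n).card := by
    intro n
    induction n with
    | zero => intro _; exact Nat.zero_le _
    | succ n ih =>
      intro hn
      have h1 := ih (by omega)
      have h2 : reach Δ U Q n ⊂ reach Δ U Q (n + 1) :=
        Finset.ssubset_iff_subset_ne.2 ⟨reach_mono Δ U Q n, fun he => hc n (by omega) he.symm⟩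
      have h3 := Finset.card_lt_card h2
      omega
  have h1 := h (k + 1) le_rfl
  have h2 := Finset.card_le_card (reach_sub Δ U Q (k + 1))
  omega

theorem pow_mono (D : Finset G) (hD : (1 : G) ∈ D) {n k : ℕ} (h : n ≤ k) : D ^ n ⊆ D ^ k :=
  Finset.pow_subset_pow_right hD h

/-- strong spatial mixing. -/
theorem mixing {A : Type} {k : ℕ} (X : Set (G → A)) (f : (Fin (k + 1) → A) → A)
    (hf : NearUnanimity f) (hX : ClosedUnder X f) (Δ : Finset G)
    (hΔ : ∀ Ω₁ Ω₂ : Finset G, (∀ w ∈ Ω₁, ∀ d ∈ Δ, w * d ∉ Ω₂) →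
      ∀ x₁ ∈ X, ∀ x₂ ∈ X, ∃ z ∈ X, (∀ w ∈ Ω₁, z w = x₁ w) ∧ (∀ w ∈ Ω₂, z w = x₂ w))
    (U V W : Finset G) (hUV : ∀ u ∈ U, ∀ d ∈ (insert 1 Δ) ^ k, u * d ∉ V)
    (x₁ : G → A) (hx₁ : x₁ ∈ X) (x₂ : G → A) (hx₂ : x₂ ∈ X) (hW : ∀ w ∈ W, x₁ w = x₂ w) :
    ∃ z ∈ X, (∀ u ∈ U, z u = x₁ u) ∧ (∀ v ∈ V, z v = x₂ v) ∧ ∀ w ∈ W, z w = x₁ w := by
  classical
  have hone : (1 : G) ∈ insert 1 Δ := Finset.mem_insert_self _ _
  have h1k : (1 : G) ∈ (insert 1 Δ) ^ k := Finset.one_mem_pow hone
  set p : G → A := fun g => if g ∈ V then x₂ g else x₁ g with hp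
  have hUn : ∀ u ∈ U, u ∉ V := fun u hu => by
    have := hUV u hu 1 h1k
    rwa [mul_one] at this
  obtain ⟨z, hz, hzp⟩ := bakerPixley X f hf hX p _ (U ∪ V ∪ W) rfl (by
    intro Q hQ hQk
    obtain ⟨n, hn, hst⟩ := reach_stop Δ U Q k hQk
    obtain ⟨z, hz, h1, h2⟩ := hΔ (reach Δ U Q n) (Q \ reach Δ U Q n) (by
      intro w hw d hd hwd
      obtain ⟨h3, h4⟩ := Finset.mem_sdiff.1 hwd
      apply h4
      rw [← hst]
      exact Finset.mem_inter.2 ⟨Finset.mul_mem_mul hw (Finset.mem_insert_of_mem hd), h3⟩)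
      x₁ hx₁ x₂ hx₂
    refine ⟨z, hz, fun g hg => ?_⟩
    by_cases hr : g ∈ reach Δ U Q n
    · obtain ⟨u, hu, d, hd, hud⟩ := reach_dist Δ U Q n g hr
      have hgV : g ∉ V := by
        rw [← hud]
        exact hUV u hu d (pow_mono _ hone hn hd)
      rw [h1 g hr, hp]
      simp only [if_neg hgV]
    · rw [h2 g (Finset.mem_sdiff.2 ⟨hg, hr⟩), hp]
      have hgU : g ∉ U := fun hc => hr (reach_zero_sub Δ U Q n (Finset.mem_inter.2 ⟨hc, hg⟩))
      by_cases hgV : g ∈ V
      · simp only [if_pos hgV]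
      · simp only [if_neg hgV]
        have hgW : g ∈ W := by
          have := hQ hg
          simp only [Finset.mem_union] at this
          tauto
        exact (hW g hgW).symm)
  refine ⟨z, hz, fun u hu => ?_, fun v hv => ?_, fun w hw => ?_⟩
  · rw [hzp u (by simp [hu]), hp]
    simp only [if_neg (hUn u hu)]
  · rw [hzp v (by simp [hv]), hp]
    simp only [if_pos hv]
  · rw [hzp w (by simp [hw]), hp]
    by_cases hwV : w ∈ V
    · simp only [if_pos hwV]
      exact (hW w hw).symm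
    · simp only [if_neg hwV]

end

/-- periodic configurations are dense in `Y`. -/
theorem denseY (G : Type) [Group G] (hG : ResiduallyFinite G)
    (B : Type) [TopologicalSpace B] [DiscreteTopology B] [Finite B]
    (Y : Set (G → B)) (hY : IsSubshift Y) (hSI : StronglyIrreducible Y)
    (k : ℕ) (f : (Fin (k + 1) → B) → B) (hf : NearUnanimity f) (hYf : ClosedUnder Y f) :
    ∀ x ∈ Y, ∀ F : Finset G, ∃ y ∈ Y, Periodic y ∧ ∀ h ∈ F, y h = x h := by
  classical
  obtain ⟨hcl, hinv⟩ := hY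
  obtain ⟨Δ, hΔ⟩ := hSI
  exact Pool.Agent.TH88.SI.Tssm.dense hG Y hcl hinv ((insert 1 Δ) ^ k)
    (Finset.one_mem_pow (Finset.mem_insert_self _ _))
    (fun u V W huV x₁ hx₁ x₂ hx₂ hW => by
      obtain ⟨z, hz, h1, h2, h3⟩ := mixing Y f hf hYf Δ hΔ {u} V W (by
        intro u' hu' d hd
        rw [Finset.mem_singleton.1 hu']
        exact huV d hd) x₁ hx₁ x₂ hx₂ hW
      exact ⟨z, hz, h1 u (Finset.mem_singleton_self u), h3, h2⟩)

/-- continuity on finite windows. -/
theorem window {G A B : Type} [TopologicalSpace A] [DiscreteTopology A] [TopologicalSpace B]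
    [DiscreteTopology B] {Y : Set (G → B)} {X : Set (G → A)} (θ : Y → X) (hθ : Continuous θ)
    (y : Y) (F : Finset G) :
    ∃ W : Finset G, ∀ y' : Y, (∀ h ∈ W, y'.1 h = y.1 h) → ∀ h ∈ F, (θ y').1 h = (θ y).1 h := by
  classical
  have h1 : ∀ h : G, Continuous (fun y' : Y => (θ y').1 h) := fun h =>
    (continuous_apply h).comp (continuous_subtype_val.comp hθ)
  have h2 : IsOpen (⋂ h ∈ F, {y' : Y | (θ y').1 h = (θ y).1 h}) := by
    refine isOpen_biInter_finset fun h _ => ?_
    exact (isOpen_discrete {(θ y).1 h}).preimage (h1 h)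
  have hy : y ∈ ⋂ h ∈ F, {y' : Y | (θ y').1 h = (θ y).1 h} := by
    simp
  obtain ⟨O, hO, hOe⟩ := isOpen_induced_iff.1 h2
  have hyO : y.1 ∈ O := by
    have : y ∈ Subtype.val ⁻¹' O := by rw [hOe]; exact hy
    exact this
  obtain ⟨W, u, hu, hWu⟩ := isOpen_pi_iff.1 hO y.1 hyO
  refine ⟨W, fun y' hy' h hh => ?_⟩
  have h3 : y'.1 ∈ O := hWu fun i hi => by
    rw [hy' i hi]
    exact (hu i hi).2
  have h4 : y' ∈ ⋂ h ∈ F, {y' : Y | (θ y').1 h = (θ y).1 h} := by
    rw [← hOe]; exact h3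
  simp only [Set.mem_iInter, Set.mem_setOf_eq] at h4
  exact h4 h hh

theorem result (G : Type) [Group G] (hG : ResiduallyFinite G)
    (B : Type) [Finite B] [TopologicalSpace B] [DiscreteTopology B]
    (Y : Set (G → B)) (hY : IsSubshift Y) (hSI : StronglyIrreducible Y)
    (k : ℕ) (f : (Fin (k + 1) → B) → B) (hf : NearUnanimity f) (hYf : ClosedUnder Y f)
    (A : Type) [Finite A] [TopologicalSpace A] [DiscreteTopology A]
    (X : Set (G → A)) (hX : IsSubshift X)
    (θ : Y → X) (hθ : Continuous θ) (hθe : Equivariant θ) (hθs : Function.Surjective θ) :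
    (∀ x ∈ X, ∀ F : Finset G, ∃ y ∈ X, Periodic y ∧ ∀ h ∈ F, y h = x h) ∧
      ∀ τ : X → X, Continuous τ → Equivariant τ → Function.Injective τ → Function.Surjective τ := by
  classical
  have hd : ∀ x ∈ X, ∀ F : Finset G, ∃ y ∈ X, Periodic y ∧ ∀ h ∈ F, y h = x h := by
    intro x hx F
    obtain ⟨y, hy⟩ := hθs ⟨x, hx⟩
    obtain ⟨W, hW⟩ := window θ hθ y F
    obtain ⟨y', hy', hper, hag⟩ := denseY G hG B Y hY hSI k f hf hYf y.1 y.2 W
    refine ⟨(θ ⟨y', hy'⟩).1, (θ ⟨y', hy'⟩).2, ?_, fun h hh => ?_⟩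
    · have hinv := hY.2
      have hsub : Set.range (fun g : G => fun h : G => (θ ⟨y', hy'⟩).1 (g⁻¹ * h)) ⊆
          (fun z : G → B => if hz : z ∈ Y then (θ ⟨z, hz⟩).1 else (θ ⟨y', hy'⟩).1) ''
            Set.range (fun g : G => fun h : G => y' (g⁻¹ * h)) := by
        rintro _ ⟨g, rfl⟩
        refine ⟨fun h => y' (g⁻¹ * h), ⟨g, rfl⟩, ?_⟩
        simp only [dif_pos (hinv g y' hy')]
        funext h
        exact hθe g ⟨y', hy'⟩ ⟨_, hinv g y' hy'⟩ (fun _ => rfl) h
      exact (hper.image _).subset hsub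
    · rw [hW ⟨y', hy'⟩ hag h hh, hy]
  exact ⟨hd, fun τ hτ he hinj =>
    Pool.Agent.TH88.SI.surj_of_dense A X hX.1 hd τ hτ he hinj⟩

end Pool.Agent.Results.MP_3bdc7b_an.NearUnanimity
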