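import Pool.Agent.TH88.SI.Tssm

/-!
# MP_3bdc7b_an: strongly irreducible subshifts closed under distant superposition

Let `G` be residually finite and let `Y ⊆ B^G` be a strongly irreducible subshift, not necessarily
of finite type, that contains a periodic configuration `c` such that any two configurations of `Y`
that differ from `c` at finitely many, distant places can be superposed.  Then `Y` and all subshifts
that are factors of `Y` have dense periodic configurations and are surjunctive.  For example `Y` can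
be any strongly irreducible closed submonoid of `M^G`, where `M` is a finite monoid.
-/

namespace Pool.Agent.Results.MP_3bdc7b_an.Superposition

/-- `G` is residually finite. -/
def ResiduallyFinite (G : Type) [Group G] : Prop :=
  ∀ g : G, g ≠ 1 → ∃ H : Subgroup G, H.FiniteIndex ∧ g ∉ H

/-- `X` is a subshift for the shift `(g x)(h) = x (g⁻¹ h)`. -/
def IsSubshift {G A : Type} [Group G] [TopologicalSpace A] (X : Set (G → A)) : Prop :=
  IsClosed X ∧ ∀ g : G, ∀ x ∈ X, (fun h => x (g⁻¹ * h)) ∈ X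

/-- `X` is strongly irreducible. -/
def StronglyIrreducible {G A : Type} [Group G] (X : Set (G → A)) : Prop :=
  ∃ Δ : Finset G, ∀ Ω₁ Ω₂ : Finset G, (∀ w ∈ Ω₁, ∀ d ∈ Δ, w * d ∉ Ω₂) →
    ∀ x₁ ∈ X, ∀ x₂ ∈ X, ∃ z ∈ X, (∀ w ∈ Ω₁, z w = x₁ w) ∧ (∀ w ∈ Ω₂, z w = x₂ w)

/-- `x` is fixed by the shifts in a subgroup of finite index. -/
def Periodic {G A : Type} [Group G] (x : G → A) : Prop :=
  ∃ N : Subgroup G, N.FiniteIndex ∧ ∀ n ∈ N, ∀ h, x (n⁻¹ * h) = x h

/-- `θ : Y → X` commutes with the shift. -/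
def Equivariant {G A B : Type} [Group G] {Y : Set (G → B)} {X : Set (G → A)} (θ : Y → X) : Prop :=
  ∀ (g : G) (x y : Y), (∀ h, y.1 h = x.1 (g⁻¹ * h)) → ∀ h, (θ y).1 h = (θ x).1 (g⁻¹ * h)

/-- configurations of `X` that differ from `c` only at finitely many places, which are `D`-apart,
can be superposed. -/
def Superposable {G A : Type} [Group G] (X : Set (G → A)) (c : G → A) : Prop :=
  ∃ D : Finset G, ∀ x ∈ X, ∀ y ∈ X, {g | x g ≠ c g}.Finite → {g | y g ≠ c g}.Finite →
    (∀ g, x g ≠ c g → ∀ d ∈ D, y (g * d) = c (g * d)) →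
    ∀ z : G → A, (∀ g, x g ≠ c g → z g = x g) → (∀ g, x g = c g → z g = y g) → z ∈ X

theorem mem_of_window {G A : Type} [TopologicalSpace A] {X : Set (G → A)} (hcl : IsClosed X)
    (y : G → A) (h : ∀ W : Finset G, ∃ x ∈ X, ∀ g ∈ W, x g = y g) : y ∈ X := by
  by_contra hy
  obtain ⟨W, u, hu, hWu⟩ := isOpen_pi_iff.1 hcl.isOpen_compl y hy
  obtain ⟨x, hx, hxy⟩ := h W
  exact hWu (fun i hi => by rw [hxy i hi]; exact (hu i hi).2) hx

/-- `x` can be cut off towards `c` outside a finite set. -/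
theorem cutoff {G A : Type} [Group G] [Finite A] [TopologicalSpace A] [DiscreteTopology A]
    {X : Set (G → A)} (hcl : IsClosed X) (hSI : StronglyIrreducible X) (c : G → A) (hc : c ∈ X)
    (x : G → A) (hx : x ∈ X) (F : Finset G) :
    ∃ (F' : Finset G) (w : G → A), w ∈ X ∧ F ⊆ F' ∧ (∀ g ∈ F, w g = x g) ∧
      ∀ g, g ∉ F' → w g = c g := by
  classical
  obtain ⟨Δ, hΔ⟩ := hSI
  set F' : Finset G := (F ×ˢ (insert 1 Δ)).image (fun p => p.1 * p.2) with hF'
  have hFF : F ⊆ F' := fun g hg => Finset.mem_image.2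
    ⟨(g, 1), Finset.mem_product.2 ⟨hg, Finset.mem_insert_self _ _⟩, mul_one g⟩
  let C : Finset G → Set (G → A) := fun W =>
    X ∩ ((⋂ g ∈ F, {z | z g = x g}) ∩ (⋂ g ∈ W \ F', {z | z g = c g}))
  have hcl1 : ∀ (g : G) (a : A), IsClosed {z : G → A | z g = a} := fun g a =>
    isClosed_eq (continuous_apply g) continuous_const
  have hC : ∀ W, IsClosed (C W) := fun W =>
    hcl.inter ((isClosed_biInter fun g _ => hcl1 g _).inter (isClosed_biInter fun g _ => hcl1 g _))
  obtain ⟨w, hw⟩ := IsCompact.nonempty_iInter_of_directed_nonempty_isCompact_isClosed C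
    (by
      intro W W'
      refine ⟨W ∪ W', ?_, ?_⟩
      · rintro z ⟨h1, h2, h3⟩
        refine ⟨h1, h2, ?_⟩
        simp only [Set.mem_iInter] at h3 ⊢
        intro g hg
        exact h3 g (Finset.sdiff_subset_sdiff Finset.subset_union_left (Finset.Subset.refl _) hg)
      · rintro z ⟨h1, h2, h3⟩
        refine ⟨h1, h2, ?_⟩
        simp only [Set.mem_iInter] at h3 ⊢
        intro g hg
        exact h3 g (Finset.sdiff_subset_sdiff Finset.subset_union_right (Finset.Subset.refl _) hg))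
    (by
      intro W
      obtain ⟨z, hz, h1, h2⟩ := hΔ F (W \ F') (by
        intro w hw d hd hwd
        exact (Finset.mem_sdiff.1 hwd).2 (Finset.mem_image.2
          ⟨(w, d), Finset.mem_product.2 ⟨hw, Finset.mem_insert_of_mem hd⟩, rfl⟩)) x hx c hc
      refine ⟨z, hz, ?_, ?_⟩
      · simp only [Set.mem_iInter]
        exact h1
      · simp only [Set.mem_iInter]
        exact h2)
    (fun W => (hC W).isCompact) hC
  rw [Set.mem_iInter] at hw
  refine ⟨F', w, (hw ∅).1, hFF, ?_, ?_⟩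
  · have := (hw ∅).2.1
    simp only [Set.mem_iInter] at this
    exact this
  · intro g hg
    have := (hw {g}).2.2
    simp only [Set.mem_iInter] at this
    exact this g (Finset.mem_sdiff.2 ⟨Finset.mem_singleton_self g, hg⟩)

/-- periodic configurations are dense in `Y`. -/
theorem denseY (G : Type) [Group G] (hG : ResiduallyFinite G)
    (A : Type) [Finite A] [TopologicalSpace A] [DiscreteTopology A]
    (X : Set (G → A)) (hX : IsSubshift X) (hSI : StronglyIrreducible X)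
    (c : G → A) (hc : c ∈ X) (hcp : Periodic c) (hS : Superposable X c) :
    ∀ x ∈ X, ∀ F : Finset G, ∃ y ∈ X, Periodic y ∧ ∀ h ∈ F, y h = x h := by
  classical
  intro x hx F
  obtain ⟨F', w, hw, hFF, hwx, hwc⟩ := cutoff hX.1 hSI c hc x hx F
  obtain ⟨D, hD⟩ := hS
  obtain ⟨K, hK, hKc⟩ := hcp
  obtain ⟨N₀, hN₀n, hN₀f, hN₀a⟩ := Pool.Agent.TH88.SI.Tssm.avoid hG
    ((F' ×ˢ (F' ×ˢ (insert 1 D))).image (fun p => p.1 * p.2.2⁻¹ * p.2.1⁻¹))
  set N : Subgroup G := N₀ ⊓ K with hN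
  haveI : N.FiniteIndex := inferInstance
  have hcN : ∀ n ∈ N, ∀ g, c (n⁻¹ * g) = c g := fun n hn => hKc n hn.2
  have hsupp : ∀ g, w g ≠ c g → g ∈ F' := fun g hg => by
    by_contra h
    exact hg (hwc g h)
  -- translates of the support are apart
  have hap : ∀ n ∈ N, ∀ n' ∈ N, ∀ g, ∀ d ∈ insert 1 D, w (n⁻¹ * g) ≠ c g →
      w (n'⁻¹ * (g * d)) ≠ c (g * d) → n = n' := by
    intro n hn n' hn' g d hd h1 h2
    rw [← hcN n hn] at h1
    rw [← hcN n' hn'] at h2
    have h3 := hsupp _ h1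
    have h4 := hsupp _ h2
    have h5 : (n'⁻¹ * (g * d)) * d⁻¹ * (n⁻¹ * g)⁻¹ = n'⁻¹ * n := by group
    by_contra hne
    refine hN₀a (n'⁻¹ * n) (Finset.mem_image.2 ⟨(n'⁻¹ * (g * d), (n⁻¹ * g, d)),
      Finset.mem_product.2 ⟨h4, Finset.mem_product.2 ⟨h3, hd⟩⟩, h5⟩) ?_
      (N₀.mul_mem (N₀.inv_mem hn'.1) hn.1)
    intro he
    exact hne (inv_mul_eq_one.1 he).symm
  have hone : (1 : G) ∈ insert 1 D := Finset.mem_insert_self _ _
  have huniq : ∀ n ∈ N, ∀ n' ∈ N, ∀ g, w (n⁻¹ * g) ≠ c g → w (n'⁻¹ * g) ≠ c g → n = n' := by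
    intro n hn n' hn' g h1 h2
    refine hap n hn n' hn' g 1 hone h1 ?_
    rwa [mul_one]
  -- finite superpositions
  have hfin : ∀ T : Finset G, (∀ n ∈ T, n ∈ N) → ∃ y ∈ X, {g | y g ≠ c g}.Finite ∧
      ∀ g, (∀ n ∈ T, w (n⁻¹ * g) ≠ c g → y g = w (n⁻¹ * g)) ∧
        ((∀ n ∈ T, w (n⁻¹ * g) = c g) → y g = c g) := by
    intro T
    induction T using Finset.induction_on with
    | empty =>
      intro _
      refine ⟨c, hc, by simp, fun g => ⟨by simp, fun _ => rfl⟩⟩
    | insert n T hnT ih =>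
      intro hT
      obtain ⟨y, hy, hyf, hyp⟩ := ih fun m hm => hT m (Finset.mem_insert_of_mem hm)
      have hn := hT n (Finset.mem_insert_self _ _)
      have hwf : {g | w (n⁻¹ * g) ≠ c g}.Finite := by
        refine (F'.image (fun f => n * f)).finite_toSet.subset ?_
        intro g hg
        have h1 : w (n⁻¹ * g) ≠ c (n⁻¹ * g) := by rw [hcN n hn]; exact hg
        refine Finset.mem_coe.2 (Finset.mem_image.2 ⟨n⁻¹ * g, hsupp _ h1, ?_⟩)
        group
      refine ⟨fun g => if w (n⁻¹ * g) ≠ c g then w (n⁻¹ * g) else y g, ?_, ?_, ?_⟩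
      · refine hD (fun g => w (n⁻¹ * g)) (hX.2 n w hw) y hy hwf hyf ?_ _ ?_ ?_
        · intro g hg d hd
          refine (hyp (g * d)).2 fun m hm => ?_
          by_contra hm2
          have := hap n hn m (hT m (Finset.mem_insert_of_mem hm)) g d
            (Finset.mem_insert_of_mem hd) hg hm2
          exact hnT (this ▸ hm)
        · intro g hg
          exact if_pos hg
        · intro g hg
          exact if_neg (not_not.2 hg)
      · refine (hwf.union hyf).subset ?_
        intro g hg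
        by_cases h1 : w (n⁻¹ * g) ≠ c g
        · exact Or.inl h1
        · refine Or.inr ?_
          have h2 : (if w (n⁻¹ * g) ≠ c g then w (n⁻¹ * g) else y g) ≠ c g := hg
          rwa [if_neg h1] at h2
      · intro g
        constructor
        · intro m hm hmg
          rcases Finset.mem_insert.1 hm with rfl | hm
          · exact if_pos hmg
          · have h1 : ¬ w (n⁻¹ * g) ≠ c g := fun h1 => by
              have := huniq n hn m (hT m (Finset.mem_insert_of_mem hm)) g h1 hmg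
              exact hnT (this ▸ hm)
            show (if w (n⁻¹ * g) ≠ c g then w (n⁻¹ * g) else y g) = _
            rw [if_neg h1]
            exact (hyp g).1 m hm hmg
        · intro hall
          show (if w (n⁻¹ * g) ≠ c g then w (n⁻¹ * g) else y g) = _
          rw [if_neg (not_not.2 (hall n (Finset.mem_insert_self _ _)))]
          exact (hyp g).2 fun m hm => hall m (Finset.mem_insert_of_mem hm)
  -- the periodic superposition
  let Yc : G → A := fun g => if h : ∃ n ∈ N, w (n⁻¹ * g) ≠ c g then w (h.choose⁻¹ * g) else c g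
  have hY1 : ∀ g, ∀ n ∈ N, w (n⁻¹ * g) ≠ c g → Yc g = w (n⁻¹ * g) := by
    intro g n hn hng
    have h : ∃ n ∈ N, w (n⁻¹ * g) ≠ c g := ⟨n, hn, hng⟩
    have h1 : Yc g = w (h.choose⁻¹ * g) := dif_pos h
    rw [h1, huniq _ h.choose_spec.1 n hn g h.choose_spec.2 hng]
  have hY2 : ∀ g, (∀ n ∈ N, w (n⁻¹ * g) = c g) → Yc g = c g := by
    intro g hg
    refine dif_neg ?_
    rintro ⟨n, hn, h⟩
    exact h (hg n hn)
  refine ⟨Yc, ?_, ⟨N, inferInstance, ?_⟩, ?_⟩
  · refine mem_of_window hX.1 _ fun W => ?_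
    obtain ⟨y, hy, -, hyp⟩ := hfin
      (((W ×ˢ F').image (fun p => p.1 * p.2⁻¹)).filter (fun n => n ∈ N))
      (fun n hn => (Finset.mem_filter.1 hn).2)
    refine ⟨y, hy, fun g hg => ?_⟩
    by_cases h : ∃ n ∈ N, w (n⁻¹ * g) ≠ c g
    · obtain ⟨n, hn, hng⟩ := h
      rw [hY1 g n hn hng]
      refine (hyp g).1 n (Finset.mem_filter.2 ⟨Finset.mem_image.2 ⟨(g, n⁻¹ * g),
        Finset.mem_product.2 ⟨hg, ?_⟩, ?_⟩, hn⟩) hng
      · apply hsupp
        rw [hcN n hn]
        exact hng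
      · show g * (n⁻¹ * g)⁻¹ = n
        group
    · push Not at h
      rw [hY2 g h]
      exact (hyp g).2 fun n hn => h n (Finset.mem_filter.1 hn).2
  · intro n₀ hn₀ g
    by_cases h : ∃ n ∈ N, w (n⁻¹ * g) ≠ c g
    · obtain ⟨n, hn, hng⟩ := h
      have e1 : (n₀⁻¹ * n)⁻¹ * (n₀⁻¹ * g) = n⁻¹ * g := by group
      rw [hY1 g n hn hng, hY1 (n₀⁻¹ * g) (n₀⁻¹ * n) (N.mul_mem (N.inv_mem hn₀) hn), e1]
      rw [e1, hcN n₀ hn₀]
      exact hng
    · push Not at h
      rw [hY2 g h, hY2 (n₀⁻¹ * g), hcN n₀ hn₀]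
      intro n hn
      rw [hcN n₀ hn₀, ← h (n₀ * n) (N.mul_mem hn₀ hn)]
      congr 1
      group
  · intro g hg
    rw [← hwx g hg]
    by_cases h : w g ≠ c g
    · have := hY1 g 1 N.one_mem (by rwa [inv_one, one_mul])
      rwa [inv_one, one_mul] at this
    · rw [not_not] at h
      rw [h]
      refine hY2 g fun n hn => ?_
      by_contra hng
      have h1 : w (n⁻¹ * g) ≠ c (n⁻¹ * g) := by rw [hcN n hn]; exact hng
      have h2 := hsupp _ h1
      have h3 : n⁻¹ = 1 := by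
        by_contra hne
        refine hN₀a n⁻¹ (Finset.mem_image.2 ⟨(n⁻¹ * g, (g, 1)),
          Finset.mem_product.2 ⟨h2, Finset.mem_product.2 ⟨hFF hg, hone⟩⟩, ?_⟩) hne
          (N₀.inv_mem hn.1)
        show n⁻¹ * g * 1⁻¹ * g⁻¹ = n⁻¹
        group
      rw [h3, one_mul] at hng
      exact hng h

/-- continuity on finite windows. -/
theorem window {G A B : Type} [TopologicalSpace A] [DiscreteTopology A] [TopologicalSpace B]
    [DiscreteTopology B] {Y : Set (G → B)} {X : Set (G → A)} (θ : Y → X) (hθ : Continuous θ)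
    (y : Y) (F : Finset G) :
    ∃ W : Finset G, ∀ y' : Y, (∀ h ∈ W, y'.1 h = y.1 h) → ∀ h ∈ F, (θ y').1 h = (θ y).1 h := by
  classical
  have h1 : ∀ h : G, Continuous (fun y' : Y => (θ y').1 h) := fun h =>
    (continuous_apply h).comp (continuous_subtype_val.comp hθ)
  have h2 : IsOpen (⋂ h ∈ F, {y' : Y | (θ y').1 h = (θ y).1 h}) := by
    refine isOpen_biInter_finset fun h _ => ?_
    exact (isOpen_discrete {(θ y).1 h}).preimage (h1 h)
  have hy : y ∈ ⋂ h ∈ F, {y' : Y | (θ y').1 h = (θ y).1 h} := by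
    simp
  obtain ⟨O, hO, hOe⟩ := isOpen_induced_iff.1 h2
  have hyO : y.1 ∈ O := by
    have : y ∈ Subtype.val ⁻¹' O := by rw [hOe]; exact hy
    exact this
  obtain ⟨W, u, hu, hWu⟩ := isOpen_pi_iff.1 hO y.1 hyO
  refine ⟨W, fun y' hy' h hh => ?_⟩
  have h3 : y'.1 ∈ O := hWu fun i hi => by
    rw [hy' i hi]
    exact (hu i hi).2
  have h4 : y' ∈ ⋂ h ∈ F, {y' : Y | (θ y').1 h = (θ y).1 h} := by
    rw [← hOe]; exact h3
  rw [Set.mem_iInter₂] at h4
  exact h4 h hh

/-- a periodic configuration has a finite orbit. -/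
theorem finite_orbit {G A : Type} [Group G] (x : G → A) (hx : Periodic x) :
    (Set.range (fun g : G => fun h : G => x (g⁻¹ * h))).Finite := by
  obtain ⟨N, hN, hNx⟩ := hx
  haveI := hN
  refine (Set.finite_range (fun q : G ⧸ N => fun h : G => x (q.out⁻¹ * h))).subset ?_
  rintro _ ⟨g, rfl⟩
  refine ⟨(g : G ⧸ N), ?_⟩
  obtain ⟨n, hn⟩ := QuotientGroup.mk_out_eq_mul N g
  funext h
  show x ((Quotient.out (g : G ⧸ N))⁻¹ * h) = x (g⁻¹ * h)
  rw [hn, mul_inv_rev, mul_assoc]
  exact hNx n.1 n.2 _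

theorem result (G : Type) [Group G] (hG : ResiduallyFinite G)
    (B : Type) [Finite B] [TopologicalSpace B] [DiscreteTopology B]
    (Y : Set (G → B)) (hY : IsSubshift Y) (hSI : StronglyIrreducible Y)
    (c : G → B) (hc : c ∈ Y) (hcp : Periodic c) (hS : Superposable Y c)
    (A : Type) [Finite A] [TopologicalSpace A] [DiscreteTopology A]
    (X : Set (G → A)) (hX : IsSubshift X)
    (θ : Y → X) (hθ : Continuous θ) (hθe : Equivariant θ) (hθs : Function.Surjective θ) :
    (∀ x ∈ X, ∀ F : Finset G, ∃ y ∈ X, Periodic y ∧ ∀ h ∈ F, y h = x h) ∧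
      ∀ τ : X → X, Continuous τ → Equivariant τ → Function.Injective τ → Function.Surjective τ := by
  classical
  have hd : ∀ x ∈ X, ∀ F : Finset G, ∃ y ∈ X, Periodic y ∧ ∀ h ∈ F, y h = x h := by
    intro x hx F
    obtain ⟨y, hy⟩ := hθs ⟨x, hx⟩
    obtain ⟨W, hW⟩ := window θ hθ y F
    obtain ⟨y', hy', ⟨N, hN, hNy⟩, hag⟩ := denseY G hG B Y hY hSI c hc hcp hS y.1 y.2 W
    refine ⟨(θ ⟨y', hy'⟩).1, (θ ⟨y', hy'⟩).2, ⟨N, hN, fun n hn h => ?_⟩, fun h hh => ?_⟩
    · exact (hθe n ⟨y', hy'⟩ ⟨y', hy'⟩ (fun k => (hNy n hn k).symm) h).symm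
    · rw [hW ⟨y', hy'⟩ hag h hh, hy]
  exact ⟨hd, fun τ hτ he hinj =>
    Pool.Agent.TH88.SI.surj_of_dense A X hX.1 (fun x hx F => by
      obtain ⟨y, h1, h2, h3⟩ := hd x hx F
      exact ⟨y, h1, finite_orbit y h2, h3⟩) τ hτ he hinj⟩

end Pool.Agent.Results.MP_3bdc7b_an.Superposition
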